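import Pool.Agent.V5helper49.PTR.Stm

/-! Project PTR, job NEG. -/

set_option autoImplicit false

namespace Pool.Agent.V5helper61.PTR

open Finset Filter
open Pool.Agent.V5helper49.PTR

theorem t_NEG : S_NEG := by
  classical
  intro s hs M hM A hA
  obtain ⟨m0, hm0⟩ := eventually_atTop.1 hM
  obtain ⟨x0, hx0⟩ := eventually_atTop.1 hA
  have hlog : Tendsto (fun n : ℕ => Real.log (n : ℝ)) atTop atTop :=
    Real.tendsto_log_atTop.comp tendsto_natCast_atTop_atTop
  have h1 := hlog.eventually_ge_atTop (25 : ℝ)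
  have h2 := hlog.eventually_ge_atTop (x0 : ℝ)
  have h3 : ∀ᶠ n : ℕ in atTop, Real.log (n : ℝ) ^ s ≤ (n : ℝ) / 8 := by
    have h := (Real.isLittleO_pow_log_id_atTop (n := s)).bound (show (0 : ℝ) < 1 / 8 by norm_num)
    have h' := (tendsto_natCast_atTop_atTop (R := ℝ)).eventually h
    filter_upwards [h', h1] with n hn hn1
    have h4 : 0 ≤ Real.log (n : ℝ) ^ s := pow_nonneg (by linarith) s
    rw [Real.norm_of_nonneg h4] at hn
    simp only [id] at hn
    rw [Real.norm_of_nonneg (Nat.cast_nonneg n)] at hn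
    linarith
  have hbad : ∀ᶠ n : ℕ in atTop, ¬ Good M A n := by
    filter_upwards [h1, h2, h3, eventually_ge_atTop (2 * m0 + 8)] with n hL hLx hLn hn hG
    obtain ⟨L, hLe⟩ : ∃ L : ℝ, L = Real.log (n : ℝ) := ⟨_, rfl⟩
    rw [← hLe] at hL hLx hLn
    have hL0 : 0 ≤ L := by linarith
    have hLs0 : 0 ≤ L ^ s := pow_nonneg hL0 s
    obtain ⟨y, hy⟩ : ∃ y : ℕ, y = ⌈L ^ s⌉₊ := ⟨_, rfl⟩
    have hy1 : L ^ s ≤ y := hy ▸ Nat.le_ceil _
    have hy2 : (y : ℝ) < L ^ s + 1 := hy ▸ Nat.ceil_lt_add_one hLs0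
    have hLs : L ≤ L ^ s := le_self_pow₀ (by linarith) (by omega)
    have hnr : 2 * (m0 : ℝ) + 8 ≤ n := by exact_mod_cast hn
    have hm00 : (0 : ℝ) ≤ m0 := Nat.cast_nonneg _
    have hyn : (y : ℝ) + 1 ≤ n / 2 := by linarith
    have hyn' : 2 * (y + 1) ≤ n := by
      have : 2 * ((y : ℝ) + 1) ≤ n := by linarith
      exact_mod_cast this
    obtain ⟨m, hm⟩ : ∃ m : ℕ, n = m + y + 1 := ⟨n - y - 1, by omega⟩
    have hmc : (n : ℝ) = m + y + 1 := by rw [hm]; push_cast; ring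
    have hmr : (n : ℝ) / 2 ≤ m := by linarith
    have hmm0 : m0 ≤ m := by omega
    have hmpos : (0 : ℝ) < m := by linarith
    have hnpos : (0 : ℝ) < n := by linarith
    have hml : Real.log m ≤ L := by
      rw [hLe]
      exact Real.log_le_log hmpos (by rw [hmc]; have := Nat.cast_nonneg (α := ℝ) y; linarith)
    have hml2 : L - 1 ≤ Real.log m := by
      have h5 : Real.log ((n : ℝ) / 2) ≤ Real.log m := Real.log_le_log (by positivity) hmr
      rw [Real.log_div hnpos.ne' (by norm_num), ← hLe] at h5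
      have := Real.log_two_lt_d9
      linarith
    have hlm0 : 0 < Real.log m := by linarith
    have hreg := (hm0 m hmm0 y ((pow_le_pow_left₀ hlm0.le hml s).trans hy1) (by omega)).2
    have hcard : (cnt A y : ℝ) ≤ 2 * y / Real.log m := by
      refine le_trans (Nat.cast_le.2 ?_) hreg
      unfold cnt
      exact card_le_card_of_injOn (fun k => n - k) (by
        intro k hk
        have hk' := mem_filter.1 (mem_coe.1 hk)
        have hk1 := mem_Icc.1 hk'.1
        refine mem_coe.2 (mem_filter.2 ⟨mem_Ioc.2 ⟨?_, ?_⟩, hG k hk'.2 (by omega) (by omega)⟩)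
        · show m < n - k
          omega
        · show n - k ≤ m + y
          omega) (by
        intro k hk k' hk' h
        have hk1 := mem_Icc.1 (mem_filter.1 (mem_coe.1 hk)).1
        have hk1' := mem_Icc.1 (mem_filter.1 (mem_coe.1 hk')).1
        have h' : n - k = n - k' := h
        omega)
    have hy0 : (0 : ℝ) < y := by linarith
    have hc := hx0 y (by
      have : (x0 : ℝ) ≤ y := by linarith
      exact_mod_cast this)
    have hsr : (0 : ℝ) < s := by exact_mod_cast hs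
    have e1 : (y : ℝ) = (y : ℝ) ^ (1 - 1 / (2 * (s : ℝ))) * (y : ℝ) ^ (1 / (2 * (s : ℝ))) := by
      rw [← Real.rpow_add hy0, sub_add_cancel, Real.rpow_one]
    have hu : 0 < (y : ℝ) ^ (1 - 1 / (2 * (s : ℝ))) := Real.rpow_pos_of_pos hy0 _
    have h6 := hc.trans hcard
    rw [le_div_iff₀ hlm0] at h6
    have h7 : (y : ℝ) ^ (1 - 1 / (2 * (s : ℝ))) * Real.log m ≤
        (y : ℝ) ^ (1 - 1 / (2 * (s : ℝ))) * (2 * (y : ℝ) ^ (1 / (2 * (s : ℝ)))) := by
      calc (y : ℝ) ^ (1 - 1 / (2 * (s : ℝ))) * Real.log m ≤ 2 * y := h6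
        _ = 2 * ((y : ℝ) ^ (1 - 1 / (2 * (s : ℝ))) * (y : ℝ) ^ (1 / (2 * (s : ℝ)))) := by rw [← e1]
        _ = _ := by ring
    have h8 : Real.log m ≤ 2 * (y : ℝ) ^ (1 / (2 * (s : ℝ))) := le_of_mul_le_mul_left h7 hu
    obtain ⟨t, ht⟩ : ∃ t : ℝ, t = Real.sqrt L := ⟨_, rfl⟩
    have ht0 : 0 ≤ t := ht ▸ Real.sqrt_nonneg L
    have ht2 : t ^ 2 = L := by rw [ht]; exact Real.sq_sqrt hL0
    have ht5 : 5 ≤ t := by
      rw [ht]
      exact Real.le_sqrt_of_sq_le (by linarith)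
    have h9 : (y : ℝ) ^ (1 / (2 * (s : ℝ))) ≤ 2 * t := by
      have h10 : (y : ℝ) ≤ (2 * t) ^ (2 * s) := by
        have h11 : (2 * t) ^ (2 * s) = 4 ^ s * L ^ s := by
          rw [pow_mul, mul_pow, ht2, mul_pow]
          norm_num
        have h12 : (4 : ℝ) ≤ 4 ^ s := le_self_pow₀ (by norm_num) (by omega)
        have h13 : 4 * L ^ s ≤ 4 ^ s * L ^ s := mul_le_mul_of_nonneg_right h12 hLs0
        rw [h11]
        linarith
      have h14 := Real.rpow_le_rpow hy0.le h10 (show (0 : ℝ) ≤ 1 / (2 * (s : ℝ)) by positivity)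
      have h15 : ((2 * t) ^ (2 * s)) ^ (1 / (2 * (s : ℝ))) = 2 * t := by
        have h16 : (1 / (2 * (s : ℝ))) = (((2 * s : ℕ) : ℝ))⁻¹ := by
          push_cast
          rw [one_div]
        rw [h16]
        exact Real.pow_rpow_inv_natCast (by positivity) (by omega)
      rwa [h15] at h14
    nlinarith
  obtain ⟨n0, hn0⟩ := eventually_atTop.1 hbad
  exact (Set.finite_Iio n0).subset fun n hn => by
    by_contra h
    exact hn0 n (not_lt.1 h) hn

end Pool.Agent.V5helper61.PTR
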